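import Pool.Agent.TH493.RBM.Final

namespace Pool.Agent.Results.MP_dabbe0_pr.Asymptotics

open Filter Topology Pool.Agent.TH493.Boltz

/-- The least number `m*(n)` of hidden units for which the binary restricted Boltzmann machine
with `n` visible units is a universal approximator satisfies `m*(n) ~ 2^n / n`. -/
theorem result :
    (∀ n m : ℕ, IsUniversal n m ↔ mStar n ≤ m) ∧
    Tendsto (fun n : ℕ => (mStar n : ℝ) * n / 2 ^ n) atTop (𝓝 1) :=
  ⟨isUniversal_iff, tendsto_mStar⟩

end Pool.Agent.Results.MP_dabbe0_pr.Asymptotics
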