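import Pool.Agent.TH493.RBM.Final

namespace Pool.Agent.Results.MP_dabbe0_pr.PerfectLengths

open Pool.Agent.TH493.Boltz

/-- Explicit two-sided bounds for `m*(n)`.  When `n + 1` is a power of two they read
`2^n/(n+1) - 1 ≤ m*(n) ≤ 2^n/(n+1) + 3n^2/4`. -/
theorem result :
    (∀ n m : ℕ, IsUniversal n m ↔ mStar n ≤ m) ∧
    (∀ n : ℕ, 2 ^ n ≤ (n + 1) * (mStar n + 1) ∧
      mStar n ≤ 2 ^ (n - Nat.log 2 (n + 1)) + 3 * n ^ 2 / 4) ∧
    (∀ n k : ℕ, n + 1 = 2 ^ k → 2 ^ n / (n + 1) ≤ mStar n + 1 ∧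
      mStar n ≤ 2 ^ n / (n + 1) + 3 * n ^ 2 / 4) := by
  have h1 : ∀ n : ℕ, 2 ^ n ≤ (n + 1) * (mStar n + 1) ∧
      mStar n ≤ 2 ^ (n - Nat.log 2 (n + 1)) + 3 * n ^ 2 / 4 := fun n =>
    ⟨lower_bound (isUniversal_mStar n),
      mStar_le (universal_hamming (Nat.pow_log_le_self 2 (Nat.succ_ne_zero n)) le_rfl)⟩
  refine ⟨isUniversal_iff, h1, fun n k hk => ?_⟩
  have h2 := h1 n
  have hkn : k ≤ n := by
    have : k < 2 ^ k := Nat.lt_two_pow_self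
    omega
  have h3 : 2 ^ n / (n + 1) = 2 ^ (n - k) := by
    rw [hk, Nat.pow_div hkn (by norm_num)]
  refine ⟨?_, ?_⟩
  · exact Nat.div_le_of_le_mul h2.1
  · have h4 : Nat.log 2 (n + 1) = k := by rw [hk]; exact Nat.log_pow (by norm_num) k
    rw [h3]
    rw [h4] at h2
    exact h2.2

end Pool.Agent.Results.MP_dabbe0_pr.PerfectLengths
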